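import Pool.Agent.H48.SC.CylInf
import Pool.Agent.H48.SC.Two
import Pool.Agent.H48.SC.Lro

/-!
# Percolation of the sourceless single random current for `β > 3 β_c`, in every dimension
-/

set_option autoImplicit false

namespace Pool.Agent.Results.MP_b7beeb_pr.AboveThreeBetaC

open MeasureTheory Pool.Agent.H90.SC

/-- Let `d ≥ 1` and `β > 3 β_c(d)`. Let `μ` be a limit, along any subsequence of the boxes
`[-N, N]^d`, of the sourceless single random current measures (free boundary). Then `μ`-almost
surely the trace `{e : n e > 0}` has an infinite connected component; moreover there is a constant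
`c > 0` such that any two vertices are connected in the trace with `μ`-probability at least `c`. -/
theorem result (d : ℕ) (hd : 1 ≤ d) (β : ℝ) (hβ : 3 * betaC d < ENNReal.ofReal β)
    (μ : Measure (Edg d → ℕ)) (hμ1 : IsProbabilityMeasure μ) (hμ : IsLimit d β μ) :
    (∀ᵐ n ∂μ, HasInfinite {e | 0 < n e}) ∧
    ∃ c : ℝ, 0 < c ∧ ∀ x y : Vtx d, c ≤ μ.real {n | (graphOf {e | 0 < n e}).Reachable x y} := by
  have hβ0 : 0 < β := by
    by_contra h
    rw [ENNReal.ofReal_of_nonpos (not_lt.1 h)] at hβ
    exact absurd hβ not_lt_zero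
  have hb : betaC d < ENNReal.ofReal (β / 3) := by
    rw [ENNReal.ofReal_div_of_pos (by norm_num), ENNReal.ofReal_ofNat]
    rw [mul_comm] at hβ
    exact ENNReal.lt_div_iff_mul_lt (Or.inl (by norm_num)) (Or.inl (by norm_num)) |>.2 hβ
  have hl := Pool.Agent.H48.SC.lro hb
  refine ⟨Pool.Agent.H48.SC.as_inf hd hβ0.le hμ hl, ?_⟩
  obtain ⟨c, hc, hl⟩ := hl
  exact ⟨c ^ 2, by positivity, fun x y =>
    Pool.Agent.H48.SC.mu_conn hβ0.le hμ hc x y (hl x y)⟩

end Pool.Agent.Results.MP_b7beeb_pr.AboveThreeBetaC
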