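import Pool.Agent.H90.SC.G3
import Pool.Agent.H90.SC.H2
import Pool.Agent.H90.SC.I1

/-!
# Percolation of the sourceless single random current in high dimension
-/

namespace Pool.Agent.Results.MP_b7beeb_pr.HighDimension

open MeasureTheory Pool.Agent.H90.SC

/-- Let `d ≥ 1000` and `β ≥ 100 / d`. Under every subsequential limit `μ` of the sourceless single
random current measures in the boxes `[-N, N]^d` (free boundary), almost surely the trace
`{e : n e > 0}` has an infinite connected component; in fact the set of edges with an odd current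
has one. Moreover `β_c(d) ≥ 1 / (2 d)`, so this covers all `β ≥ 200 β_c(d)`. -/
theorem result (d : ℕ) (hd : 1000 ≤ d) :
    ENNReal.ofReal (1 / (2 * d)) ≤ betaC d ∧
    ∀ β : ℝ, (100 / (d : ℝ) ≤ β ∨ 200 * betaC d < ENNReal.ofReal β) →
      ∀ μ : Measure (Edg d → ℕ), IsProbabilityMeasure μ → IsLimit d β μ →
        ∀ᵐ n ∂μ, HasInfinite {e | 0 < n e} ∧ HasInfinite {e | Odd (n e)} := by
  have hb := betaC_ge d (by omega)
  refine ⟨hb, fun β hβ μ hμ1 hμ => ?_⟩
  have hd0 : (0 : ℝ) < d := by
    have : 0 < d := by omega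
    exact_mod_cast this
  have hβ1 : 100 / (d : ℝ) ≤ β := by
    rcases hβ with h | h
    · exact h
    · have h1 : 200 * ENNReal.ofReal (1 / (2 * d)) ≤ ENNReal.ofReal β :=
        (mul_le_mul_right hb _).trans h.le
      have h2 : ENNReal.ofReal (100 / d) ≤ ENNReal.ofReal β := by
        refine le_trans (le_of_eq ?_) h1
        rw [show (200 : ENNReal) = ENNReal.ofReal 200 by norm_num,
          ← ENNReal.ofReal_mul (by norm_num)]
        congr 1
        field_simp
        norm_num
      have h3 : 0 < ENNReal.ofReal β := lt_of_lt_of_le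
        (ENNReal.ofReal_pos.2 (by positivity)) h2
      exact (ENNReal.ofReal_le_ofReal_iff (ENNReal.ofReal_pos.1 h3).le).1 h2
  have hβ0 : 0 ≤ β := le_trans (by positivity) hβ1
  obtain ⟨k, h1, h2, h3, h4⟩ := params d hd β hβ1
  filter_upwards [as_infinite h1 h2 h3 β hβ0 h4 μ hμ] with n hn
  exact ⟨hasInfinite_mono (fun e he => Odd.pos he) hn, hn⟩

end Pool.Agent.Results.MP_b7beeb_pr.HighDimension
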